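import Mathlib

/-!
The entire function `P(z) = ∏_{n ≥ 0} (1 - z / 2^n)^n` (a zero of order `n` at `2^n`).
-/

open Filter Topology Set Finset

namespace Pool.Agent.H311R2.YL

/-- the increments of the factors -/
noncomputable def g (n : ℕ) (z : ℂ) : ℂ := (1 - z / 2 ^ n) ^ n - 1

lemma one_add_g (n : ℕ) (z : ℂ) : 1 + g n z = (1 - z / 2 ^ n) ^ n := by
  unfold g; ring

lemma exp_sub_one_le (x : ℝ) : Real.exp x - 1 ≤ x * Real.exp x := by
  have h := Real.add_one_le_exp (-x)
  have h1 : (1 - x) * Real.exp x ≤ Real.exp (-x) * Real.exp x :=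
    mul_le_mul_of_nonneg_right (by linarith) (Real.exp_pos x).le
  rw [← Real.exp_add, neg_add_cancel, Real.exp_zero] at h1
  nlinarith

lemma norm_g_le (n : ℕ) (z : ℂ) : ‖g n z‖ ≤ n * (1 / 2) ^ n * (‖z‖ * Real.exp ‖z‖) := by
  have h := Finset.norm_prod_one_add_sub_one_le (Finset.range n) (fun _ => -(z / 2 ^ n) : ℕ → ℂ)
  simp only [Finset.prod_const, Finset.card_range, Finset.sum_const, norm_neg, nsmul_eq_mul] at h
  rw [← sub_eq_add_neg] at h
  have h2 : ‖z / 2 ^ n‖ = ‖z‖ * (1 / 2) ^ n := by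
    rw [norm_div, norm_pow, Complex.norm_ofNat, one_div, inv_pow, div_eq_mul_inv]
  rw [h2] at h
  have h3 : (n : ℝ) * (1 / 2) ^ n ≤ 1 := by
    have h4 : (n : ℝ) ≤ 2 ^ n := by exact_mod_cast Nat.lt_two_pow_self.le
    rw [one_div, inv_pow, ← div_eq_mul_inv, div_le_one (by positivity)]
    exact h4
  have h5 : (n : ℝ) * (‖z‖ * (1 / 2) ^ n) ≤ ‖z‖ := by
    calc (n : ℝ) * (‖z‖ * (1 / 2) ^ n) = ‖z‖ * (n * (1 / 2) ^ n) := by ring
      _ ≤ ‖z‖ * 1 := mul_le_mul_of_nonneg_left h3 (norm_nonneg z)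
      _ = ‖z‖ := mul_one _
  unfold g
  refine h.trans ((exp_sub_one_le _).trans ?_)
  calc (n : ℝ) * (‖z‖ * (1 / 2) ^ n) * Real.exp (n * (‖z‖ * (1 / 2) ^ n))
      ≤ (n : ℝ) * (‖z‖ * (1 / 2) ^ n) * Real.exp ‖z‖ := by
        apply mul_le_mul_of_nonneg_left (Real.exp_le_exp.2 h5)
        positivity
    _ = n * (1 / 2) ^ n * (‖z‖ * Real.exp ‖z‖) := by ring

lemma summable_base : Summable fun n : ℕ => (n : ℝ) * (1 / 2) ^ n := by
  have := summable_pow_mul_geometric_of_norm_lt_one 1 (r := (1 / 2 : ℝ)) (by norm_num)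
  simpa using this

variable (c : ℕ → ℂ)

lemma summable_cg (hc : ∀ n, ‖c n‖ ≤ 1) (z : ℂ) : Summable fun n => ‖c n * g n z‖ := by
  refine Summable.of_nonneg_of_le (fun _ => norm_nonneg _) (fun n => ?_)
    (summable_base.mul_right (‖z‖ * Real.exp ‖z‖))
  rw [norm_mul]
  calc ‖c n‖ * ‖g n z‖ ≤ 1 * ‖g n z‖ := mul_le_mul_of_nonneg_right (hc n) (norm_nonneg _)
    _ = ‖g n z‖ := one_mul _
    _ ≤ _ := norm_g_le n z

lemma continuous_g (n : ℕ) : Continuous (g n) := by
  unfold g; fun_prop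

lemma differentiable_g (n : ℕ) : Differentiable ℂ (g n) := by
  unfold g; fun_prop

/-- locally uniform convergence of the (masked) product -/
theorem prod_tendsto (hc : ∀ n, ‖c n‖ ≤ 1) :
    TendstoLocallyUniformlyOn (fun N z => ∏ n ∈ Finset.range N, (1 + c n * g n z))
      (fun z => ∏' n, (1 + c n * g n z)) atTop univ := by
  apply HasProdLocallyUniformlyOn.tendstoLocallyUniformlyOn_finsetRange
  apply hasProdLocallyUniformlyOn_of_forall_compact isOpen_univ
  intro K _ hK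
  obtain ⟨R, hR⟩ := hK.isBounded.exists_norm_le
  refine Summable.hasProdUniformlyOn_one_add hK
    (summable_base.mul_right (max R 0 * Real.exp (max R 0))) (Eventually.of_forall ?_) ?_
  · intro n x hx
    rw [norm_mul]
    have hxR : ‖x‖ ≤ max R 0 := (hR x hx).trans (le_max_left _ _)
    calc ‖c n‖ * ‖g n x‖ ≤ 1 * ‖g n x‖ := mul_le_mul_of_nonneg_right (hc n) (norm_nonneg _)
      _ = ‖g n x‖ := one_mul _
      _ ≤ n * (1 / 2) ^ n * (‖x‖ * Real.exp ‖x‖) := norm_g_le n x
      _ ≤ n * (1 / 2) ^ n * (max R 0 * Real.exp (max R 0)) := by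
        apply mul_le_mul_of_nonneg_left _ (by positivity)
        exact mul_le_mul hxR (Real.exp_le_exp.2 hxR) (Real.exp_pos _).le (le_max_right _ _)
  · intro n
    exact (continuous_const.mul (continuous_g n)).continuousOn

theorem prod_differentiable (hc : ∀ n, ‖c n‖ ≤ 1) :
    Differentiable ℂ (fun z => ∏' n, (1 + c n * g n z)) := by
  rw [← differentiableOn_univ]
  refine (prod_tendsto c hc).differentiableOn (Eventually.of_forall fun N => ?_) isOpen_univ
  apply DifferentiableOn.fun_finsetProd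
  intro n _
  exact ((differentiable_g n).const_mul _).const_add _ |>.differentiableOn

/-- `P(z) = ∏ (1 - z/2^n)^n` -/
noncomputable def P (z : ℂ) : ℂ := ∏' n : ℕ, (1 - z / 2 ^ n) ^ n

/-- partial products -/
noncomputable def PN (N : ℕ) (z : ℂ) : ℂ := ∏ n ∈ Finset.range N, (1 - z / 2 ^ n) ^ n

lemma P_eq : P = fun z => ∏' n : ℕ, (1 + (fun _ => (1 : ℂ)) n * g n z) := by
  funext z
  unfold P
  congr 1
  funext n
  rw [one_mul, one_add_g]

lemma PN_eq : PN = fun N z => ∏ n ∈ Finset.range N, (1 + (fun _ => (1 : ℂ)) n * g n z) := by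
  funext N z
  unfold PN
  refine Finset.prod_congr rfl fun n _ => ?_
  rw [one_mul, one_add_g]

theorem P_tendsto : TendstoLocallyUniformlyOn PN P atTop univ := by
  rw [P_eq, PN_eq]
  exact prod_tendsto _ (fun n => by simp)

theorem P_differentiable : Differentiable ℂ P := by
  rw [P_eq]
  exact prod_differentiable _ (fun n => by simp)

lemma PN_differentiable (N : ℕ) : Differentiable ℂ (PN N) := by
  unfold PN
  apply Differentiable.fun_finsetProd
  intro n _
  fun_prop

lemma PN_zero (N : ℕ) : PN N 0 = 1 := by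
  unfold PN; simp

/-- the cofactor of the `k`-th factor -/
noncomputable def Rk (k : ℕ) (z : ℂ) : ℂ := ∏' n : ℕ, (1 + (if n = k then (0 : ℂ) else 1) * g n z)

lemma mask_le (k n : ℕ) : ‖(if n = k then (0 : ℂ) else 1)‖ ≤ 1 := by
  split_ifs <;> simp

theorem Rk_differentiable (k : ℕ) : Differentiable ℂ (Rk k) :=
  prod_differentiable _ (mask_le k)

lemma P_factor (k : ℕ) (z : ℂ) : P z = (1 - z / 2 ^ k) ^ k * Rk k z := by
  have h0 : Multipliable fun n : ℕ => (1 + (1 : ℂ) * g n z) :=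
    multipliable_one_add_of_summable (summable_cg (fun _ => 1) (fun n => by simp) z)
  have h1 : Multipliable (Function.update (fun n : ℕ => (1 + (1 : ℂ) * g n z)) k 1) := by
    have h2 : Multipliable fun n : ℕ => (1 + (if n = k then (0 : ℂ) else 1) * g n z) :=
      multipliable_one_add_of_summable (summable_cg _ (mask_le k) z)
    convert h2 using 1
    funext n
    by_cases h : n = k
    · subst h; simp
    · simp [h]
  rw [P_eq]
  show ∏' n : ℕ, (1 + (1 : ℂ) * g n z) = _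
  rw [h1.tprod_eq_mul_tprod_ite' k]
  congr 1
  · rw [one_mul, one_add_g]
  · unfold Rk
    congr 1
    funext n
    by_cases h : n = k
    · subst h; simp
    · simp [h]

lemma factor_ne {n k : ℕ} (h : n ≠ k) : (1 : ℂ) - 2 ^ k / 2 ^ n ≠ 0 := by
  intro h0
  have h1 : (2 : ℂ) ^ k = 2 ^ n := by
    have h2 : (2 : ℂ) ^ n ≠ 0 := pow_ne_zero _ two_ne_zero
    field_simp at h0
    linear_combination -h0
  have h3 : (2 : ℕ) ^ k = 2 ^ n := by exact_mod_cast h1
  exact h (Nat.pow_right_injective le_rfl h3).symm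

lemma Rk_ne (k : ℕ) : Rk k (2 ^ k) ≠ 0 := by
  unfold Rk
  apply tprod_one_add_ne_zero_of_summable
  · intro n
    by_cases h : n = k
    · simp [h]
    · rw [if_neg h, one_mul, one_add_g]
      exact pow_ne_zero _ (factor_ne h)
  · exact summable_cg _ (mask_le k) _

lemma P_ne {z : ℂ} (hz : ∀ n : ℕ, 1 ≤ n → z ≠ 2 ^ n) : P z ≠ 0 := by
  rw [P_eq]
  apply tprod_one_add_ne_zero_of_summable
  · intro n
    rw [one_mul, one_add_g]
    rcases Nat.eq_zero_or_pos n with h | h
    · subst h; simp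
    · apply pow_ne_zero
      intro h0
      apply hz n h
      have h2 : (2 : ℂ) ^ n ≠ 0 := pow_ne_zero _ two_ne_zero
      field_simp at h0
      linear_combination -h0
  · exact summable_cg _ (fun n => by simp) _

lemma P_zero_at {n : ℕ} (hn : 1 ≤ n) : P (2 ^ n) = 0 := by
  have h2 : (2 : ℂ) ^ n ≠ 0 := pow_ne_zero _ two_ne_zero
  rw [P_factor n, div_self h2, sub_self, zero_pow (by omega), zero_mul]

lemma PN_ne {z : ℂ} (hz : ∀ n : ℕ, 1 ≤ n → z ≠ 2 ^ n) (N : ℕ) : PN N z ≠ 0 := by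
  unfold PN
  rw [Finset.prod_ne_zero_iff]
  intro n _
  rcases Nat.eq_zero_or_pos n with h | h
  · subst h; simp
  · apply pow_ne_zero
    intro h0
    apply hz n h
    have h2 : (2 : ℂ) ^ n ≠ 0 := pow_ne_zero _ two_ne_zero
    field_simp at h0
    linear_combination -h0

end Pool.Agent.H311R2.YL
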