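import Mathlib
import Pool.Agent.H311R2.YL.Prod

open Filter Topology Set Finset Complex

namespace Pool.Agent.H311R2.YL

/-- the basic factor -/
noncomputable def phi (w : ℂ) : ℂ := (1 + I * w) / (1 - w)

/-- partial products of the function -/
noncomputable def fN (N : ℕ) (z : ℂ) : ℂ := ∏ n ∈ Finset.range N, phi (z / 2 ^ n) ^ n

/-- the function -/
noncomputable def f (z : ℂ) : ℂ := P (-(I * z)) / P z

lemma fN_eq (N : ℕ) (z : ℂ) : fN N z = PN N (-(I * z)) / PN N z := by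
  unfold fN PN phi
  rw [← Finset.prod_div_distrib]
  refine Finset.prod_congr rfl fun n _ => ?_
  rw [div_pow]
  congr 2
  ring

lemma normSq_num (w : ℂ) : ‖1 + I * w‖ ^ 2 = (1 - w.im) ^ 2 + w.re ^ 2 := by
  rw [← Complex.normSq_eq_norm_sq, Complex.normSq_apply]
  simp
  ring

lemma normSq_den (w : ℂ) : ‖1 - w‖ ^ 2 = (1 - w.re) ^ 2 + w.im ^ 2 := by
  rw [← Complex.normSq_eq_norm_sq, Complex.normSq_apply]
  simp
  ring

lemma norm_sq' (w : ℂ) : ‖w‖ ^ 2 = w.re ^ 2 + w.im ^ 2 := by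
  rw [← Complex.normSq_eq_norm_sq, Complex.normSq_apply]
  ring

lemma phi_le_one {w : ℂ} (h : w.re ≤ w.im) : ‖phi w‖ ≤ 1 := by
  unfold phi
  rw [norm_div]
  apply div_le_one_of_le₀ _ (norm_nonneg _)
  apply le_of_sq_le_sq _ (norm_nonneg _)
  rw [normSq_num, normSq_den]
  nlinarith

lemma one_le_phi {w : ℂ} (h : w.im ≤ w.re) (hw : w ≠ 1) : 1 ≤ ‖phi w‖ := by
  unfold phi
  have h1 : 0 < ‖1 - w‖ := norm_pos_iff.2 (sub_ne_zero.2 hw.symm)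
  rw [norm_div, le_div_iff₀ h1, one_mul]
  apply le_of_sq_le_sq _ (norm_nonneg _)
  rw [normSq_num, normSq_den]
  nlinarith

lemma re_div_pow (z : ℂ) (n : ℕ) : (z / 2 ^ n).re = z.re / 2 ^ n := by
  have : (2 : ℂ) ^ n = ((2 ^ n : ℝ) : ℂ) := by push_cast; rfl
  rw [this, Complex.div_ofReal_re]

lemma im_div_pow (z : ℂ) (n : ℕ) : (z / 2 ^ n).im = z.im / 2 ^ n := by
  have : (2 : ℂ) ^ n = ((2 ^ n : ℝ) : ℂ) := by push_cast; rfl
  rw [this, Complex.div_ofReal_im]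

lemma norm_div_pow (z : ℂ) (n : ℕ) : ‖z / 2 ^ n‖ = ‖z‖ / 2 ^ n := by
  rw [norm_div, norm_pow, Complex.norm_ofNat]

theorem fN_le_one {z : ℂ} (h : z.re ≤ z.im) (N : ℕ) : ‖fN N z‖ ≤ 1 := by
  unfold fN
  rw [norm_prod]
  apply Finset.prod_le_one (fun _ _ => norm_nonneg _)
  intro n _
  rw [norm_pow]
  apply pow_le_one₀ (norm_nonneg _)
  apply phi_le_one
  rw [re_div_pow, im_div_pow]
  gcongr

/-- growth of one factor away from the positive axis -/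
lemma phi_growth {κ : ℝ} (hk : 0 ≤ κ) (hκ : κ < 1) {w : ℂ} (hw : w.re ≤ κ * ‖w‖) :
    ‖phi w‖ ^ 2 ≤ Real.exp (4 / (1 - κ) * (‖w‖ / (1 + ‖w‖ ^ 2))) := by
  have h1 : 0 < 1 - κ := by linarith
  have hn := norm_nonneg w
  have hden : (1 - κ) * (1 + ‖w‖ ^ 2) / 1 ≤ ‖1 - w‖ ^ 2 := by
    rw [normSq_den]
    have := norm_sq' w
    rw [div_one]
    nlinarith [sq_nonneg (1 - ‖w‖), mul_nonneg hk (sq_nonneg (1 - ‖w‖))]
  have hpos : 0 < (1 - κ) * (1 + ‖w‖ ^ 2) := by positivity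
  rw [div_one] at hden
  have hd0 : 0 < ‖1 - w‖ ^ 2 := lt_of_lt_of_le hpos hden
  have hnum : ‖1 + I * w‖ ^ 2 ≤ ‖1 - w‖ ^ 2 + 4 * ‖w‖ := by
    rw [normSq_num, normSq_den]
    have ha := (abs_le.1 (Complex.abs_re_le_norm w)).2
    have hb := (abs_le.1 (Complex.abs_im_le_norm w)).1
    nlinarith
  unfold phi
  rw [norm_div, div_pow]
  calc ‖1 + I * w‖ ^ 2 / ‖1 - w‖ ^ 2 ≤ (‖1 - w‖ ^ 2 + 4 * ‖w‖) / ‖1 - w‖ ^ 2 := by gcongr
    _ = 1 + 4 * ‖w‖ / ‖1 - w‖ ^ 2 := by rw [add_div, div_self hd0.ne']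
    _ ≤ 1 + 4 * ‖w‖ / ((1 - κ) * (1 + ‖w‖ ^ 2)) := by gcongr
    _ = 4 / (1 - κ) * (‖w‖ / (1 + ‖w‖ ^ 2)) + 1 := by field_simp; ring
    _ ≤ _ := Real.add_one_le_exp _

/-- the dyadic sum -/
lemma dyadic_sum {x : ℝ} {m : ℕ} (h1 : 2 ^ m ≤ x) (h2 : x < 2 ^ (m + 1)) (N : ℕ) :
    ∑ n ∈ Finset.range N, (n : ℝ) * ((x / 2 ^ n) / (1 + (x / 2 ^ n) ^ 2)) ≤
      (4 : ℝ) * ((m : ℝ) + 2) := by
  have hx : 0 < x := lt_of_lt_of_le (by positivity) h1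
  have ha : ∀ n : ℕ, (x / 2 ^ n) / (1 + (x / 2 ^ n) ^ 2) ≤ 2 ^ n / 2 ^ m := by
    intro n
    have h2n : (0 : ℝ) < 2 ^ n := by positivity
    have h2m : (0 : ℝ) < 2 ^ m := by positivity
    have hy : 0 < x / 2 ^ n := by positivity
    calc (x / 2 ^ n) / (1 + (x / 2 ^ n) ^ 2) ≤ (x / 2 ^ n) / ((x / 2 ^ n) ^ 2) := by
          gcongr; linarith
      _ = 2 ^ n / x := by field_simp
      _ ≤ 2 ^ n / 2 ^ m := by gcongr
  have hb : ∀ n : ℕ, (x / 2 ^ n) / (1 + (x / 2 ^ n) ^ 2) ≤ 2 ^ (m + 1) / 2 ^ n := by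
    intro n
    have h2n : (0 : ℝ) < 2 ^ n := by positivity
    have hy : 0 < x / 2 ^ n := by positivity
    calc (x / 2 ^ n) / (1 + (x / 2 ^ n) ^ 2) ≤ (x / 2 ^ n) / 1 := by
          gcongr; nlinarith [sq_nonneg (x / 2 ^ n)]
      _ = x / 2 ^ n := div_one _
      _ ≤ 2 ^ (m + 1) / 2 ^ n := by gcongr
  have hA : ∀ N : ℕ, ∑ n ∈ Finset.range N, (n : ℝ) * ((x / 2 ^ n) / (1 + (x / 2 ^ n) ^ 2)) ≤
      (N : ℝ) * ((2 : ℝ) ^ N / 2 ^ m) := by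
    intro N
    induction N with
    | zero => simp
    | succ N ih =>
      rw [Finset.sum_range_succ]
      have h3 : (N : ℝ) * ((x / 2 ^ N) / (1 + (x / 2 ^ N) ^ 2)) ≤ N * (2 ^ N / 2 ^ m) :=
        mul_le_mul_of_nonneg_left (ha N) (Nat.cast_nonneg _)
      have h4 : (N : ℝ) * (2 ^ N / 2 ^ m) + N * (2 ^ N / 2 ^ m) = N * (2 ^ (N + 1) / 2 ^ m) := by
        rw [pow_succ]; ring
      have h5 : (N : ℝ) * (2 ^ (N + 1) / 2 ^ m) ≤ ((N + 1 : ℕ) : ℝ) * (2 ^ (N + 1) / 2 ^ m) := by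
        apply mul_le_mul_of_nonneg_right _ (by positivity)
        push_cast; linarith
      linarith
  have hB : ∀ j : ℕ, ∑ n ∈ Finset.range (m + 1 + j), (n : ℝ) * ((x / 2 ^ n) / (1 + (x / 2 ^ n) ^ 2)) ≤
      (2 : ℝ) * ((m : ℝ) + 1) + 2 * ((m : ℝ) + 2) - ((m : ℝ) + 2 + (j : ℝ)) * ((2 : ℝ) / 2 ^ j) := by
    intro j
    induction j with
    | zero =>
      have := hA (m + 1)
      rw [add_zero]
      refine this.trans (le_of_eq ?_)
      rw [pow_succ]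
      have : (2 : ℝ) ^ m ≠ 0 := by positivity
      field_simp
      push_cast
      ring
    | succ j ih =>
      rw [← add_assoc, Finset.sum_range_succ]
      have h3 := mul_le_mul_of_nonneg_left (hb (m + 1 + j)) (Nat.cast_nonneg (m + 1 + j) : (0:ℝ) ≤ _)
      have h4 : ((m + 1 + j : ℕ) : ℝ) * (2 ^ (m + 1) / 2 ^ (m + 1 + j)) = (m + 1 + j) * (1 / 2 ^ j) := by
        rw [pow_add 2 (m + 1) j]
        have : (2 : ℝ) ^ (m + 1) ≠ 0 := by positivity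
        push_cast
        field_simp
      have h5 : ((m : ℝ) + 2 + j) * (2 / 2 ^ j) - (m + 2 + (j + 1 : ℕ)) * (2 / 2 ^ (j + 1)) =
          (m + 1 + j) * (1 / 2 ^ j) := by
        rw [pow_succ]
        push_cast
        field_simp
        ring
      linarith
  have hnn : ∀ n : ℕ, 0 ≤ (n : ℝ) * ((x / 2 ^ n) / (1 + (x / 2 ^ n) ^ 2)) := fun n => by positivity
  calc ∑ n ∈ Finset.range N, (n : ℝ) * ((x / 2 ^ n) / (1 + (x / 2 ^ n) ^ 2))
      ≤ ∑ n ∈ Finset.range (m + 1 + N), (n : ℝ) * ((x / 2 ^ n) / (1 + (x / 2 ^ n) ^ 2)) := by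
        apply Finset.sum_le_sum_of_subset_of_nonneg
        · intro a ha
          rw [Finset.mem_range] at ha ⊢
          omega
        · intro n _ _
          exact hnn n
    _ ≤ _ := hB N
    _ ≤ (4 : ℝ) * ((m : ℝ) + 2) := by
        have : 0 ≤ ((m : ℝ) + 2 + N) * (2 / 2 ^ N) := by positivity
        linarith

theorem fN_growth {κ : ℝ} (hκ0 : 0 ≤ κ) (hκ : κ < 1) {z : ℂ} (hz : z.re ≤ κ * ‖z‖) {m : ℕ}
    (h1 : 2 ^ m ≤ ‖z‖) (h2 : ‖z‖ < 2 ^ (m + 1)) (N : ℕ) :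
    ‖fN N z‖ ^ 2 ≤ Real.exp (4 / (1 - κ) * (4 * (m + 2))) := by
  have hk : 0 < 1 - κ := by linarith
  unfold fN
  rw [norm_prod, ← Finset.prod_pow]
  calc ∏ n ∈ Finset.range N, ‖phi (z / 2 ^ n) ^ n‖ ^ 2
      ≤ ∏ n ∈ Finset.range N, Real.exp (4 / (1 - κ) * (n * ((‖z‖ / 2 ^ n) / (1 + (‖z‖ / 2 ^ n) ^ 2)))) := by
        apply Finset.prod_le_prod (fun _ _ => by positivity)
        intro n _
        have h3 : (z / 2 ^ n).re ≤ κ * ‖z / 2 ^ n‖ := by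
          rw [re_div_pow, norm_div_pow, ← mul_div_assoc]
          gcongr
        have h4 := phi_growth hκ0 hκ h3
        rw [norm_div_pow] at h4
        rw [norm_pow, ← pow_mul, mul_comm n 2, pow_mul]
        calc (‖phi (z / 2 ^ n)‖ ^ 2) ^ n
            ≤ (Real.exp (4 / (1 - κ) * ((‖z‖ / 2 ^ n) / (1 + (‖z‖ / 2 ^ n) ^ 2)))) ^ n := by
              gcongr
          _ = _ := by
              rw [← Real.exp_nat_mul]
              congr 1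
              ring
    _ = Real.exp (4 / (1 - κ) * ∑ n ∈ Finset.range N, n * ((‖z‖ / 2 ^ n) / (1 + (‖z‖ / 2 ^ n) ^ 2))) := by
        rw [← Real.exp_sum, Finset.mul_sum]
    _ ≤ _ := by
        apply Real.exp_le_exp.2
        apply mul_le_mul_of_nonneg_left (dyadic_sum h1 h2 N)
        positivity

end Pool.Agent.H311R2.YL
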