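import Mathlib
import Pool.Agent.H311R2.YL.Kernel

open Filter Topology Set Finset Complex

namespace Pool.Agent.H311R2.YL

/-- thin sector about the positive real axis -/
def V : Set ℂ := {z | 0 < z.re ∧ |z.im| ≤ z.re / 100000}

lemma V_div {z : ℂ} (hz : z ∈ V) (n : ℕ) : z / 2 ^ n ∈ V := by
  obtain ⟨h1, h2⟩ := hz
  refine ⟨?_, ?_⟩
  · rw [re_div_pow]; positivity
  · rw [re_div_pow, im_div_pow, abs_div, abs_of_pos (by positivity : (0 : ℝ) < 2 ^ n), div_right_comm]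
    gcongr

lemma phi_two {w : ℂ} (hw : w ∈ V) (h1 : 1 ≤ ‖w‖) (h2 : ‖w‖ ≤ 2) (hw1 : w ≠ 1) (hw2 : w ≠ 2) :
    4 ≤ ‖phi w‖ * ‖phi (w / 2)‖ := by
  obtain ⟨hx, hy⟩ := hw
  have hn := norm_sq' w
  set x := w.re with hxdef
  set y := w.im with hydef
  have hx2 : x ≤ 2 := (Complex.re_le_norm w).trans h2
  have hy1 := abs_le.1 hy
  have hysq : y ^ 2 ≤ 1 / 1000000 := by
    have : |y| ≤ 1 / 10000 := hy.trans (by linarith)
    have := abs_le.1 this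
    nlinarith
  have hx1 : 999 / 1000 ≤ x := by nlinarith
  have hnum1 : 19 / 10 ≤ ‖1 + I * w‖ ^ 2 := by
    rw [normSq_num]; nlinarith
  have hnum2 : 12 / 10 ≤ ‖1 + I * (w / 2)‖ ^ 2 := by
    rw [normSq_num]
    have e1 : (w / 2).re = x / 2 := by have := re_div_pow w 1; rwa [pow_one, pow_one] at this
    have e2 : (w / 2).im = y / 2 := by have := im_div_pow w 1; rwa [pow_one, pow_one] at this
    rw [e1, e2]; nlinarith
  have hden1 : ‖1 - w‖ ^ 2 = (1 - x) ^ 2 + y ^ 2 := normSq_den w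
  have hden2 : ‖1 - w / 2‖ ^ 2 = (1 - x / 2) ^ 2 + (y / 2) ^ 2 := by
    rw [normSq_den]
    have e1 : (w / 2).re = x / 2 := by have := re_div_pow w 1; rwa [pow_one, pow_one] at this
    have e2 : (w / 2).im = y / 2 := by have := im_div_pow w 1; rwa [pow_one, pow_one] at this
    rw [e1, e2]
  have hab : (1 - x) ^ 2 * (1 - x / 2) ^ 2 ≤ 1 / 50 := by
    have h3 : (x - 1) * (1 - x / 2) ≤ 1 / 8 := by nlinarith [sq_nonneg (x - 3 / 2)]
    have h4 : -(1 / 100) ≤ (x - 1) * (1 - x / 2) := by nlinarith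
    have : (1 - x) ^ 2 * (1 - x / 2) ^ 2 = ((x - 1) * (1 - x / 2)) ^ 2 := by ring
    rw [this]; nlinarith
  have hden : ‖1 - w‖ ^ 2 * ‖1 - w / 2‖ ^ 2 ≤ 1 / 40 := by
    rw [hden1, hden2]
    have h5 : (1 - x) ^ 2 ≤ 1 := by nlinarith
    have h6 : (1 - x / 2) ^ 2 ≤ 1 := by nlinarith
    nlinarith [sq_nonneg y, sq_nonneg (1 - x), sq_nonneg (1 - x / 2),
      mul_nonneg (sq_nonneg y) (sq_nonneg (1 - x)), mul_nonneg (sq_nonneg y) (sq_nonneg (1 - x / 2))]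
  have hp1 : 0 < ‖1 - w‖ := norm_pos_iff.2 (sub_ne_zero.2 hw1.symm)
  have hp2 : 0 < ‖1 - w / 2‖ := by
    apply norm_pos_iff.2
    intro h0
    apply hw2
    linear_combination (-2) * h0
  unfold phi
  rw [norm_div, norm_div, div_mul_div_comm, le_div_iff₀ (by positivity)]
  apply le_of_sq_le_sq _ (by positivity)
  have e : (4 * (‖1 - w‖ * ‖1 - w / 2‖)) ^ 2 = 16 * (‖1 - w‖ ^ 2 * ‖1 - w / 2‖ ^ 2) := by ring
  rw [e, mul_pow]
  have : (19 / 10 : ℝ) * (12 / 10) ≤ ‖1 + I * w‖ ^ 2 * ‖1 + I * (w / 2)‖ ^ 2 := by gcongr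
  linarith

lemma one_le_prod_real {ι : Type*} (s : Finset ι) (a : ι → ℝ) (h : ∀ n ∈ s, 1 ≤ a n) :
    1 ≤ ∏ n ∈ s, a n := by
  classical
  induction s using Finset.induction_on with
  | empty => simp
  | insert i s hi ih =>
    rw [Finset.prod_insert hi]
    have h1 := h i (Finset.mem_insert_self _ _)
    have h2 := ih fun n hn => h n (Finset.mem_insert_of_mem hn)
    nlinarith

lemma two_le_prod_real {a : ℕ → ℝ} {N i j : ℕ} (hij : i ≠ j) (hi : i < N) (hj : j < N)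
    (h : ∀ n, 1 ≤ a n) : a i * a j ≤ ∏ n ∈ Finset.range N, a n := by
  rw [← Finset.mul_prod_erase (Finset.range N) a (Finset.mem_range.2 hi),
    ← Finset.mul_prod_erase ((Finset.range N).erase i) a
      (Finset.mem_erase.2 ⟨hij.symm, Finset.mem_range.2 hj⟩), ← mul_assoc]
  have h1 := one_le_prod_real (((Finset.range N).erase i).erase j) a fun n _ => h n
  have h2 : 0 ≤ a i * a j := mul_nonneg (by linarith [h i]) (by linarith [h j])
  nlinarith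

lemma ne_one_of {z : ℂ} (hz : ∀ n : ℕ, 1 ≤ n → z ≠ 2 ^ n) {n : ℕ} (hn : 1 ≤ n) : z / 2 ^ n ≠ 1 := by
  intro h
  apply hz n hn
  rw [div_eq_iff (pow_ne_zero _ two_ne_zero)] at h
  rw [h, one_mul]

theorem fN_lower {z : ℂ} (hV : z ∈ V) (hz : ∀ n : ℕ, 1 ≤ n → z ≠ 2 ^ n) {m : ℕ} (hm : 1 ≤ m)
    (h1 : 2 ^ m ≤ ‖z‖) (h2 : ‖z‖ < 2 ^ (m + 1)) {N : ℕ} (hN : m + 2 ≤ N) :
    4 ^ m ≤ ‖fN N z‖ := by
  unfold fN
  rw [norm_prod]
  have hone : ∀ n, 1 ≤ ‖phi (z / 2 ^ n) ^ n‖ := by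
    intro n
    rcases Nat.eq_zero_or_pos n with h | h
    · subst h; simp
    · rw [norm_pow]
      apply one_le_pow₀
      obtain ⟨ha, hb⟩ := V_div hV n
      apply one_le_phi _ (ne_one_of hz h)
      have := (abs_le.1 hb).2
      linarith
  refine le_trans ?_ (two_le_prod_real (a := fun n => ‖phi (z / 2 ^ n) ^ n‖) (i := m) (j := m + 1)
    (by omega) (by omega) (by omega) hone)
  have hw2 : z / 2 ^ m / 2 = z / 2 ^ (m + 1) := by rw [div_div, pow_succ]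
  have hw : 4 ≤ ‖phi (z / 2 ^ m)‖ * ‖phi (z / 2 ^ (m + 1))‖ := by
    rw [← hw2]
    apply phi_two (V_div hV m)
    · rw [norm_div_pow, le_div_iff₀ (by positivity), one_mul]; exact h1
    · rw [norm_div_pow, div_le_iff₀ (by positivity)]
      rw [pow_succ] at h2; linarith
    · exact ne_one_of hz hm
    · intro h
      apply hz (m + 1) (by omega)
      rw [div_eq_iff (pow_ne_zero _ two_ne_zero)] at h
      rw [h, pow_succ]; ring
  have h3 : 1 ≤ ‖phi (z / 2 ^ (m + 1))‖ := by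
    obtain ⟨ha, hb⟩ := V_div hV (m + 1)
    apply one_le_phi _ (ne_one_of hz (by omega))
    have := (abs_le.1 hb).2
    linarith
  show 4 ^ m ≤ ‖phi (z / 2 ^ m) ^ m‖ * ‖phi (z / 2 ^ (m + 1)) ^ (m + 1)‖
  rw [norm_pow, norm_pow, pow_succ, ← mul_assoc, ← mul_pow]
  calc (4 : ℝ) ^ m ≤ (‖phi (z / 2 ^ m)‖ * ‖phi (z / 2 ^ (m + 1))‖) ^ m := by gcongr
    _ = (‖phi (z / 2 ^ m)‖ * ‖phi (z / 2 ^ (m + 1))‖) ^ m * 1 := (mul_one _).symm
    _ ≤ _ := by gcongr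

/-! ### The logarithmic derivative -/

/-- `psi w = w phi'(w) / phi(w)` -/
noncomputable def psi (w : ℂ) : ℂ := w * (I - 1) / ((w - I) * (w - 1))

/-- partial sums -/
noncomputable def S (N : ℕ) (z : ℂ) : ℂ := ∑ n ∈ Finset.range N, (n : ℂ) * psi (z / 2 ^ n)

lemma normSq_sub_I (w : ℂ) : ‖w - I‖ ^ 2 = w.re ^ 2 + (w.im - 1) ^ 2 := by
  rw [← Complex.normSq_eq_norm_sq, Complex.normSq_apply]
  simp
  ring

lemma normSq_sub_one (w : ℂ) : ‖w - 1‖ ^ 2 = (w.re - 1) ^ 2 + w.im ^ 2 := by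
  rw [← Complex.normSq_eq_norm_sq, Complex.normSq_apply]
  simp
  ring

lemma psi_im {w : ℂ} (hI : w ≠ I) (h1 : w ≠ 1) :
    (psi w).im = w.re / ‖w - I‖ ^ 2 + w.im / ‖w - 1‖ ^ 2 := by
  have hI' : w - I ≠ 0 := sub_ne_zero.2 hI
  have h1' : w - 1 ≠ 0 := sub_ne_zero.2 h1
  have e : psi w = w / (w - I) - w / (w - 1) := by
    unfold psi
    field_simp
    ring
  rw [e, Complex.sub_im, Complex.div_im, Complex.div_im, Complex.normSq_eq_norm_sq,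
    Complex.normSq_eq_norm_sq]
  have ha : ‖w - I‖ ≠ 0 := norm_ne_zero_iff.2 hI'
  have hb : ‖w - 1‖ ≠ 0 := norm_ne_zero_iff.2 h1'
  simp only [Complex.sub_re, Complex.sub_im, Complex.I_re, Complex.I_im, Complex.one_re,
    Complex.one_im]
  field_simp
  ring

/-- away from the pole, or above it, the imaginary part of `psi` is positive -/
lemma psi_im_ge {w : ℂ} (hw : w ∈ V) (h1 : w ≠ 1) (h : 0 ≤ w.im ∨ 1 / 100 ≤ ‖w - 1‖) :
    w.re / (2 * ‖w - I‖ ^ 2) ≤ (psi w).im := by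
  obtain ⟨hx, hy⟩ := hw
  have hI : w ≠ I := by
    rintro rfl
    simp at hx
  rw [psi_im hI h1]
  have hA : 0 < ‖w - I‖ ^ 2 := by
    have := norm_pos_iff.2 (sub_ne_zero.2 hI); positivity
  have hB : 0 < ‖w - 1‖ ^ 2 := by
    have := norm_pos_iff.2 (sub_ne_zero.2 h1); positivity
  have e : w.re / ‖w - I‖ ^ 2 = w.re / (2 * ‖w - I‖ ^ 2) + w.re / (2 * ‖w - I‖ ^ 2) := by
    field_simp; ring
  rw [e, add_assoc]
  apply le_add_of_nonneg_right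
  by_cases hy0 : 0 ≤ w.im
  · positivity
  · have h100 : 1 / 100 ≤ ‖w - 1‖ := by
      rcases h with h | h
      · exact absurd h hy0
      · exact h
    have hB2 : 1 / 10000 ≤ ‖w - 1‖ ^ 2 := by nlinarith
    have hAB : ‖w - I‖ ^ 2 ≤ 2 * ‖w - 1‖ ^ 2 + 4 := by
      rw [normSq_sub_I, normSq_sub_one]
      nlinarith [sq_nonneg (w.re - 2), sq_nonneg (w.im + 1)]
    have hAB2 : ‖w - I‖ ^ 2 ≤ 40002 * ‖w - 1‖ ^ 2 := by linarith
    have hy1 := (abs_le.1 hy).1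
    have h3 : -(w.re / 100000) / ‖w - 1‖ ^ 2 ≤ w.im / ‖w - 1‖ ^ 2 := by gcongr
    have h4 : w.re / (100000 * ‖w - 1‖ ^ 2) ≤ w.re / (2 * ‖w - I‖ ^ 2) := by
      apply div_le_div_of_nonneg_left hx.le (by positivity)
      linarith
    have h5 : -(w.re / 100000) / ‖w - 1‖ ^ 2 = -(w.re / (100000 * ‖w - 1‖ ^ 2)) := by
      field_simp
    linarith

lemma norm_I_sub_one : ‖(I : ℂ) - 1‖ ^ 2 = 2 := by
  rw [normSq_sub_one]
  simp
  norm_num

lemma norm_I_sub_one_le : ‖(I : ℂ) - 1‖ ≤ 142 / 100 := by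
  have h := norm_I_sub_one
  have := norm_nonneg ((I : ℂ) - 1)
  nlinarith

lemma norm_I_sub_one_ge : 141 / 100 ≤ ‖(I : ℂ) - 1‖ := by
  have h := norm_I_sub_one
  have := norm_nonneg ((I : ℂ) - 1)
  nlinarith

lemma norm_psi (w : ℂ) : ‖psi w‖ = ‖w‖ * ‖(I : ℂ) - 1‖ / (‖w - I‖ * ‖w - 1‖) := by
  unfold psi
  rw [norm_div, norm_mul, norm_mul]

lemma psi_small {w : ℂ} (hw : ‖w‖ ≤ 505 / 1000) : ‖psi w‖ ≤ 8 * (‖w‖ / (1 + ‖w‖ ^ 2)) := by
  have hn := norm_nonneg w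
  have h1 : 495 / 1000 ≤ ‖w - I‖ := by
    have := norm_sub_norm_le I w
    rw [Complex.norm_I, norm_sub_rev] at this
    linarith
  have h2 : 495 / 1000 ≤ ‖w - 1‖ := by
    have := norm_sub_norm_le 1 w
    rw [norm_one, norm_sub_rev] at this
    linarith
  rw [norm_psi]
  have h3 := norm_I_sub_one_le
  have h4 : (245 / 1000 : ℝ) ≤ ‖w - I‖ * ‖w - 1‖ := by nlinarith
  calc ‖w‖ * ‖(I : ℂ) - 1‖ / (‖w - I‖ * ‖w - 1‖) ≤ ‖w‖ * (142 / 100) / (245 / 1000) := by gcongr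
    _ ≤ 8 * (‖w‖ / (1 + (505 / 1000) ^ 2)) := by
        have : ‖w‖ * (142 / 100) / (245 / 1000) = ‖w‖ * ((142 / 100) / (245 / 1000)) := by ring
        rw [this]
        have : 8 * (‖w‖ / (1 + (505 / 1000) ^ 2)) = ‖w‖ * (8 / (1 + (505 / 1000 : ℝ) ^ 2)) := by ring
        rw [this]
        apply mul_le_mul_of_nonneg_left _ hn
        norm_num
    _ ≤ 8 * (‖w‖ / (1 + ‖w‖ ^ 2)) := by gcongr

lemma psi_large {w : ℂ} (hw : 198 / 100 ≤ ‖w‖) : ‖psi w‖ ≤ 8 * (‖w‖ / (1 + ‖w‖ ^ 2)) := by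
  have hn : 0 < ‖w‖ := by linarith
  have h1 : 49 / 99 * ‖w‖ ≤ ‖w - I‖ := by
    have := norm_sub_norm_le w I
    rw [Complex.norm_I] at this
    linarith
  have h2 : 49 / 99 * ‖w‖ ≤ ‖w - 1‖ := by
    have := norm_sub_norm_le w 1
    rw [norm_one] at this
    linarith
  rw [norm_psi]
  have h3 := norm_I_sub_one_le
  have h4 : (49 / 99 * ‖w‖) * (49 / 99 * ‖w‖) ≤ ‖w - I‖ * ‖w - 1‖ := by gcongr
  calc ‖w‖ * ‖(I : ℂ) - 1‖ / (‖w - I‖ * ‖w - 1‖)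
      ≤ ‖w‖ * (142 / 100) / ((49 / 99 * ‖w‖) * (49 / 99 * ‖w‖)) := by gcongr
    _ ≤ 8 * (‖w‖ / (1 + ‖w‖ ^ 2)) := by
        have e : 8 * (‖w‖ / (1 + ‖w‖ ^ 2)) = 8 * ‖w‖ / (1 + ‖w‖ ^ 2) := by ring
        rw [e, div_le_div_iff₀ (by positivity) (by positivity)]
        have h5 : 1 ≤ ‖w‖ ^ 2 * (256 / 1000) := by nlinarith
        have h6 : 0 < ‖w‖ ^ 3 := by positivity
        nlinarith [mul_pos hn (sq_pos_of_pos hn)]

end Pool.Agent.H311R2.YL
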