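import Mathlib
import Pool.Agent.H311R2.YL.Lower

open Filter Topology Set Finset Complex

namespace Pool.Agent.H311R2.YL

theorem S_lower {z : ℂ} (hV : z ∈ V) (hz : ∀ n : ℕ, 1 ≤ n → z ≠ 2 ^ n) {m : ℕ} (hm : 1 ≤ m)
    (h1 : 2 ^ m ≤ ‖z‖) (h2 : ‖z‖ < 2 ^ (m + 1)) {N : ℕ} (hN : m + 2 ≤ N) :
    1 / 12 ≤ ‖S N z‖ := by
  have hz0 : 0 < ‖z‖ := lt_of_lt_of_le (by positivity) h1
  by_cases hA : ∀ n : ℕ, 1 ≤ n → (0 ≤ (z / 2 ^ n).im ∨ 1 / 100 ≤ ‖z / 2 ^ n - 1‖)
  · -- positivity of the imaginary parts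
    have him : (S N z).im = ∑ n ∈ Finset.range N, (n : ℝ) * (psi (z / 2 ^ n)).im := by
      unfold S
      rw [Complex.im_sum]
      refine Finset.sum_congr rfl fun n _ => ?_
      rw [← Complex.ofReal_natCast, Complex.im_ofReal_mul]
    have hterm : ∀ n : ℕ, 0 ≤ (n : ℝ) * (psi (z / 2 ^ n)).im := by
      intro n
      rcases Nat.eq_zero_or_pos n with h | h
      · subst h; simp
      · have h3 := psi_im_ge (V_div hV n) (ne_one_of hz h) (hA n h)
        have h4 : 0 ≤ (z / 2 ^ n).re / (2 * ‖z / 2 ^ n - I‖ ^ 2) := by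
          have := (V_div hV n).1
          positivity
        exact mul_nonneg (Nat.cast_nonneg n) (h4.trans h3)
    have hm' : (m : ℝ) * (psi (z / 2 ^ m)).im ≤ (S N z).im := by
      rw [him]
      exact Finset.single_le_sum (f := fun n : ℕ => (n : ℝ) * (psi (z / 2 ^ n)).im)
        (fun n _ => hterm n) (Finset.mem_range.2 (by omega))
    have h3 := psi_im_ge (V_div hV m) (ne_one_of hz hm) (hA m hm)
    have h4 : 1 / 12 ≤ (z / 2 ^ m).re / (2 * ‖z / 2 ^ m - I‖ ^ 2) := by
      obtain ⟨hx, hy⟩ := V_div hV m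
      have hw1 : 1 ≤ ‖z / 2 ^ m‖ := by
        rw [norm_div_pow, le_div_iff₀ (by positivity), one_mul]; exact h1
      have hw2 : ‖z / 2 ^ m‖ ≤ 2 := by
        rw [norm_div_pow, div_le_iff₀ (by positivity)]
        rw [pow_succ] at h2; linarith
      set w := z / 2 ^ m with hw
      have hn := norm_sq' w
      have hx2 : w.re ≤ 2 := (Complex.re_le_norm w).trans hw2
      have hy' : |w.im| ≤ 1 / 10000 := hy.trans (by linarith)
      have hy1 := abs_le.1 hy'
      have hx1 : 999 / 1000 ≤ w.re := by nlinarith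
      have hI : w ≠ I := by
        intro h
        rw [h] at hx
        simp at hx
      have hA' : 0 < ‖w - I‖ := norm_pos_iff.2 (sub_ne_zero.2 hI)
      rw [le_div_iff₀ (by positivity), normSq_sub_I]
      nlinarith
    have h5 : (1 : ℝ) ≤ m := by exact_mod_cast hm
    calc (1 : ℝ) / 12 ≤ (psi (z / 2 ^ m)).im := h4.trans h3
      _ ≤ m * (psi (z / 2 ^ m)).im := by nlinarith [h4.trans h3]
      _ ≤ (S N z).im := hm'
      _ ≤ ‖S N z‖ := (le_abs_self _).trans (Complex.abs_im_le_norm _)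
  · push Not at hA
    obtain ⟨n₀, hn₀, -, hclose⟩ := hA
    have hne := ne_one_of hz hn₀
    set w := z / 2 ^ n₀ with hw
    have hwn : ‖w‖ = ‖z‖ / 2 ^ n₀ := norm_div_pow z n₀
    have hw_lo : 99 / 100 ≤ ‖w‖ := by
      have := norm_sub_norm_le 1 w
      rw [norm_one, norm_sub_rev] at this
      linarith
    have hw_hi : ‖w‖ ≤ 101 / 100 := by
      have := norm_sub_norm_le w 1
      rw [norm_one] at this
      linarith
    have h2n : (0 : ℝ) < 2 ^ n₀ := by positivity
    have hz_lo : 99 / 100 * 2 ^ n₀ ≤ ‖z‖ := by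
      rw [hwn, le_div_iff₀ h2n] at hw_lo; exact hw_lo
    have hz_hi : ‖z‖ ≤ 101 / 100 * 2 ^ n₀ := by
      rw [hwn, div_le_iff₀ h2n] at hw_hi; exact hw_hi
    have hn₀m : n₀ < m + 2 := by
      by_contra hcon
      push Not at hcon
      have h3 : (2 : ℝ) ^ (m + 2) ≤ 2 ^ n₀ := pow_le_pow_right₀ (by norm_num) hcon
      have h4 : (2 : ℝ) ^ (m + 2) = 2 * 2 ^ (m + 1) := by rw [pow_succ]; ring
      linarith
    have hmn₀ : m ≤ n₀ := by
      by_contra hcon
      push Not at hcon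
      have h3 : (2 : ℝ) ^ (n₀ + 1) ≤ 2 ^ m := pow_le_pow_right₀ (by norm_num) hcon
      have h4 : (2 : ℝ) ^ (n₀ + 1) = 2 * 2 ^ n₀ := by rw [pow_succ]; ring
      linarith
    -- the other terms
    have hother : ∀ n ∈ (Finset.range N).erase n₀,
        ‖(n : ℂ) * psi (z / 2 ^ n)‖ ≤ 8 * (n * ((‖z‖ / 2 ^ n) / (1 + (‖z‖ / 2 ^ n) ^ 2))) := by
      intro n hn
      rw [Finset.mem_erase] at hn
      have h3 : ‖psi (z / 2 ^ n)‖ ≤ 8 * (‖z / 2 ^ n‖ / (1 + ‖z / 2 ^ n‖ ^ 2)) := by
        have h2n' : (0 : ℝ) < 2 ^ n := by positivity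
        rcases lt_or_gt_of_ne hn.1 with h | h
        · apply psi_large
          rw [norm_div_pow, le_div_iff₀ h2n']
          have h4 : (2 : ℝ) ^ (n + 1) ≤ 2 ^ n₀ := pow_le_pow_right₀ (by norm_num) h
          rw [pow_succ] at h4
          linarith
        · apply psi_small
          rw [norm_div_pow, div_le_iff₀ h2n']
          have h4 : (2 : ℝ) ^ (n₀ + 1) ≤ 2 ^ n := pow_le_pow_right₀ (by norm_num) h
          rw [pow_succ] at h4
          linarith
      rw [norm_mul, Complex.norm_natCast]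
      rw [norm_div_pow] at h3
      calc (n : ℝ) * ‖psi (z / 2 ^ n)‖
          ≤ n * (8 * ((‖z‖ / 2 ^ n) / (1 + (‖z‖ / 2 ^ n) ^ 2))) := by gcongr
        _ = _ := by ring
    have hrest : ‖∑ n ∈ (Finset.range N).erase n₀, (n : ℂ) * psi (z / 2 ^ n)‖ ≤ 32 * (n₀ + 2) := by
      refine (norm_sum_le_of_le _ hother).trans ?_
      rw [← Finset.mul_sum]
      have h3 : ∑ n ∈ (Finset.range N).erase n₀, (n : ℝ) * ((‖z‖ / 2 ^ n) / (1 + (‖z‖ / 2 ^ n) ^ 2)) ≤
          ∑ n ∈ Finset.range N, (n : ℝ) * ((‖z‖ / 2 ^ n) / (1 + (‖z‖ / 2 ^ n) ^ 2)) := by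
        apply Finset.sum_le_sum_of_subset_of_nonneg (Finset.erase_subset _ _)
        intro n _ _
        positivity
      have h4 := dyadic_sum h1 h2 N
      have h5 : (m : ℝ) ≤ n₀ := by exact_mod_cast hmn₀
      linarith
    have hpole : 97 ≤ ‖psi w‖ := by
      rw [norm_psi]
      have hp : 0 < ‖w - 1‖ := norm_pos_iff.2 (sub_ne_zero.2 hne)
      have hI : ‖w - I‖ ≤ 143 / 100 := by
        have h3 : w - I = (w - 1) - (I - 1) := by ring
        have h4 := norm_sub_le (w - 1) (I - 1)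
        rw [← h3] at h4
        have := norm_I_sub_one_le
        linarith
      have hI0 : 0 < ‖w - I‖ := by
        apply norm_pos_iff.2
        intro h0
        have h3 : w = I := by linear_combination h0
        have h5 := norm_I_sub_one_ge
        rw [h3] at hclose
        linarith
      have h6 := norm_I_sub_one_ge
      rw [le_div_iff₀ (by positivity)]
      have h7 : ‖w - I‖ * ‖w - 1‖ ≤ 143 / 100 * (1 / 100) := by gcongr
      have h8 : (99 / 100 : ℝ) * (141 / 100) ≤ ‖w‖ * ‖(I : ℂ) - 1‖ := by gcongr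
      linarith
    have hsplit : S N z = (n₀ : ℂ) * psi w + ∑ n ∈ (Finset.range N).erase n₀, (n : ℂ) * psi (z / 2 ^ n) := by
      unfold S
      rw [hw, Finset.add_sum_erase (Finset.range N) (fun n : ℕ => (n : ℂ) * psi (z / 2 ^ n))
        (Finset.mem_range.2 (by omega))]
    have h3 : ‖(n₀ : ℂ) * psi w‖ - ‖∑ n ∈ (Finset.range N).erase n₀, (n : ℂ) * psi (z / 2 ^ n)‖ ≤
        ‖S N z‖ := by
      rw [hsplit]
      have := norm_sub_norm_le ((n₀ : ℂ) * psi w)
        (-(∑ n ∈ (Finset.range N).erase n₀, (n : ℂ) * psi (z / 2 ^ n)))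
      rwa [norm_neg, sub_neg_eq_add] at this
    rw [norm_mul, Complex.norm_natCast] at h3
    have h4 : (1 : ℝ) ≤ n₀ := by exact_mod_cast hn₀
    have h5 : (n₀ : ℝ) * 97 ≤ n₀ * ‖psi w‖ := by gcongr
    linarith

/-! ### The derivative of the partial products -/

lemma hasDerivAt_phi {w : ℂ} (h1 : w ≠ 1) : HasDerivAt phi ((1 + I) / (1 - w) ^ 2) w := by
  have h1' : 1 - w ≠ 0 := sub_ne_zero.2 h1.symm
  have ha : HasDerivAt (fun w : ℂ => 1 + I * w) I w := by
    simpa using ((hasDerivAt_id w).const_mul I).const_add 1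
  have hb : HasDerivAt (fun w : ℂ => 1 - w) (-1) w := by
    simpa using (hasDerivAt_id w).const_sub 1
  refine (ha.fun_div hb h1').congr_deriv ?_
  congr 1
  ring

lemma phi_ne {w : ℂ} (h1 : w ≠ 1) (hI : w ≠ I) : phi w ≠ 0 := by
  unfold phi
  apply div_ne_zero
  · intro h0
    apply hI
    have : I * (1 + I * w) = 0 := by rw [h0, mul_zero]
    have h2 : I * (1 + I * w) = I - w := by
      have := Complex.I_mul_I
      linear_combination w * this
    rw [h2] at this
    exact (sub_eq_zero.1 this).symm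
  · exact sub_ne_zero.2 h1.symm

lemma logDeriv_phi {w : ℂ} (h1 : w ≠ 1) (hI : w ≠ I) : w * logDeriv phi w = psi w := by
  rw [logDeriv_apply, (hasDerivAt_phi h1).deriv]
  have h1' : 1 - w ≠ 0 := sub_ne_zero.2 h1.symm
  have h1'' : w - 1 ≠ 0 := sub_ne_zero.2 h1
  have hI' : w - I ≠ 0 := sub_ne_zero.2 hI
  have hnum : 1 + I * w = I * (w - I) := by
    have := Complex.I_mul_I
    linear_combination this
  unfold phi psi
  rw [hnum]
  have hII : (I : ℂ) ≠ 0 := Complex.I_ne_zero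
  field_simp
  have h2 := Complex.I_mul_I
  ring_nf
  simp only [Complex.I_sq]
  ring

lemma div_ne_I {z : ℂ} (hz : 0 < z.re) (n : ℕ) : z / 2 ^ n ≠ I := by
  intro h
  have h1 : (z / 2 ^ n).re = 0 := by rw [h, Complex.I_re]
  rw [re_div_pow] at h1
  have : 0 < z.re / 2 ^ n := by positivity
  linarith

theorem deriv_fN {z : ℂ} (hre : 0 < z.re) (hz : ∀ n : ℕ, 1 ≤ n → z ≠ 2 ^ n) (N : ℕ) :
    z * deriv (fN N) z = fN N z * S N z := by
  have hd : ∀ n : ℕ, 1 ≤ n → HasDerivAt (fun z : ℂ => phi (z / 2 ^ n))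
      ((1 + I) / (1 - z / 2 ^ n) ^ 2 * (1 / 2 ^ n)) z := by
    intro n hn
    exact (hasDerivAt_phi (ne_one_of hz hn)).comp z ((hasDerivAt_id z).div_const _)
  have hne : ∀ n : ℕ, 1 ≤ n → phi (z / 2 ^ n) ≠ 0 := fun n hn =>
    phi_ne (ne_one_of hz hn) (div_ne_I hre n)
  have hfne : fN N z ≠ 0 := by
    unfold fN
    rw [Finset.prod_ne_zero_iff]
    intro n _
    rcases Nat.eq_zero_or_pos n with h | h
    · subst h; simp
    · exact pow_ne_zero _ (hne n h)
  have hlog : logDeriv (fN N) z = ∑ n ∈ Finset.range N, (n : ℂ) * logDeriv (fun z : ℂ => phi (z / 2 ^ n)) z := by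
    have e : fN N = fun z => ∏ n ∈ Finset.range N, phi (z / 2 ^ n) ^ n := rfl
    rw [e, logDeriv_prod]
    · refine Finset.sum_congr rfl fun n _ => ?_
      rcases Nat.eq_zero_or_pos n with h | h
      · subst h
        simp [logDeriv_apply]
      · exact logDeriv_fun_pow (hd n h).differentiableAt n
    · intro n _
      rcases Nat.eq_zero_or_pos n with h | h
      · subst h; simp
      · exact pow_ne_zero _ (hne n h)
    · intro n _
      rcases Nat.eq_zero_or_pos n with h | h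
      · subst h; simp
      · exact (hd n h).differentiableAt.fun_pow n
  have hS : z * logDeriv (fN N) z = S N z := by
    rw [hlog, Finset.mul_sum]
    unfold S
    refine Finset.sum_congr rfl fun n _ => ?_
    rcases Nat.eq_zero_or_pos n with h | h
    · subst h; simp
    · rw [← logDeriv_phi (ne_one_of hz h) (div_ne_I hre n), logDeriv_apply, logDeriv_apply,
        (hd n h).deriv, (hasDerivAt_phi (ne_one_of hz h)).deriv]
      ring
  rw [logDeriv_apply] at hS
  rw [← hS]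
  field_simp

end Pool.Agent.H311R2.YL
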