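import Mathlib
import Pool.Agent.H311R2.YL.Deriv

open Filter Topology Set Finset Complex

namespace Pool.Agent.H311R2.YL

lemma tendsto_PN (z : ℂ) : Tendsto (fun N => PN N z) atTop (𝓝 (P z)) :=
  P_tendsto.tendsto_at (mem_univ z)

lemma tendsto_deriv_PN (z : ℂ) : Tendsto (fun N => deriv (PN N) z) atTop (𝓝 (deriv P z)) :=
  (P_tendsto.deriv (Eventually.of_forall fun N => (PN_differentiable N).differentiableOn)
    isOpen_univ).tendsto_at (mem_univ z)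

lemma tendsto_fN {z : ℂ} (hz : P z ≠ 0) : Tendsto (fun N => fN N z) atTop (𝓝 (f z)) := by
  simp_rw [fN_eq]
  exact (tendsto_PN _).div (tendsto_PN z) hz

lemma hasDerivAt_quot {A : ℂ → ℂ} (hA : Differentiable ℂ A) {z : ℂ} (hz : A z ≠ 0) :
    HasDerivAt (fun z => A (-(I * z)) / A z)
      ((deriv A (-(I * z)) * (-I) * A z - A (-(I * z)) * deriv A z) / A z ^ 2) z := by
  have h1 : HasDerivAt (fun z : ℂ => -(I * z)) (-I) z := by
    simpa using ((hasDerivAt_id z).const_mul I).fun_neg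
  have h2 : HasDerivAt (fun z => A (-(I * z))) (deriv A (-(I * z)) * (-I)) z :=
    (hA (-(I * z))).hasDerivAt.comp z h1
  exact h2.fun_div (hA z).hasDerivAt hz

lemma tendsto_deriv_fN {z : ℂ} (hz : ∀ n : ℕ, 1 ≤ n → z ≠ 2 ^ n) :
    Tendsto (fun N => deriv (fN N) z) atTop (𝓝 (deriv f z)) := by
  have h1 : ∀ N, deriv (fN N) z =
      (deriv (PN N) (-(I * z)) * (-I) * PN N z - PN N (-(I * z)) * deriv (PN N) z) / PN N z ^ 2 := by
    intro N
    have e : fN N = fun z => PN N (-(I * z)) / PN N z := by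
      funext z; exact fN_eq N z
    rw [e]
    exact (hasDerivAt_quot (PN_differentiable N) (PN_ne hz N)).deriv
  have h2 : deriv f z =
      (deriv P (-(I * z)) * (-I) * P z - P (-(I * z)) * deriv P z) / P z ^ 2 := by
    have e : f = fun z => P (-(I * z)) / P z := rfl
    rw [e]
    exact (hasDerivAt_quot P_differentiable (P_ne hz)).deriv
  simp_rw [h1]
  rw [h2]
  exact ((((tendsto_deriv_PN _).mul_const _).mul (tendsto_PN z)).sub
    ((tendsto_PN _).mul (tendsto_deriv_PN z))).div ((tendsto_PN z).pow 2)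
    (pow_ne_zero 2 (P_ne hz))

/-- the set of poles -/
def Pol : Set ℂ := {z | ∃ n : ℕ, 1 ≤ n ∧ z = 2 ^ n}

lemma not_pol {z : ℂ} (hz : z ∉ Pol) : ∀ n : ℕ, 1 ≤ n → z ≠ 2 ^ n :=
  fun n hn h => hz ⟨n, hn, h⟩

lemma P_ne_of {z : ℂ} (hz : z ∉ Pol) : P z ≠ 0 := P_ne (not_pol hz)

lemma two_pow_re (n : ℕ) : ((2 : ℂ) ^ n).re = 2 ^ n := by
  have : (2 : ℂ) ^ n = ((2 ^ n : ℝ) : ℂ) := by push_cast; rfl
  rw [this, Complex.ofReal_re]

lemma two_pow_im (n : ℕ) : ((2 : ℂ) ^ n).im = 0 := by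
  have : (2 : ℂ) ^ n = ((2 ^ n : ℝ) : ℂ) := by push_cast; rfl
  rw [this, Complex.ofReal_im]

lemma norm_two_pow (n : ℕ) : ‖(2 : ℂ) ^ n‖ = 2 ^ n := by
  rw [norm_pow, Complex.norm_ofNat]

theorem f_le_one {z : ℂ} (h : z.re ≤ z.im) : ‖f z‖ ≤ 1 := by
  have hz : z ∉ Pol := by
    rintro ⟨n, _, rfl⟩
    rw [two_pow_re, two_pow_im] at h
    have : (0 : ℝ) < 2 ^ n := by positivity
    linarith
  exact le_of_tendsto (tendsto_fN (P_ne_of hz)).norm (Eventually.of_forall fun N => fN_le_one h N)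

lemma not_pol_of_kappa {κ : ℝ} (hκ : κ < 1) {z : ℂ} (hz : z.re ≤ κ * ‖z‖) : z ∉ Pol := by
  rintro ⟨n, _, rfl⟩
  rw [two_pow_re, norm_two_pow] at hz
  have : (0 : ℝ) < 2 ^ n := by positivity
  nlinarith

theorem f_growth {κ : ℝ} (hκ0 : 0 ≤ κ) (hκ : κ < 1) :
    ∃ K : ℕ, ∀ z : ℂ, 1 ≤ ‖z‖ → z.re ≤ κ * ‖z‖ → ‖f z‖ ≤ (4 * ‖z‖) ^ K := by
  set B : ℝ := 4 / (1 - κ) * 4 with hB
  have hk : 0 < 1 - κ := by linarith
  obtain ⟨K, hK⟩ := pow_unbounded_of_one_lt (Real.exp B) (one_lt_two : (1 : ℝ) < 2)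
  refine ⟨K, fun z hz1 hz => ?_⟩
  obtain ⟨m, h1, h2⟩ := exists_nat_pow_near hz1 (one_lt_two : (1 : ℝ) < 2)
  have hpol := not_pol_of_kappa hκ hz
  have h3 : ‖f z‖ ^ 2 ≤ Real.exp (4 / (1 - κ) * (4 * (m + 2))) :=
    le_of_tendsto ((tendsto_fN (P_ne_of hpol)).norm.pow 2)
      (Eventually.of_forall fun N => fN_growth hκ0 hκ hz h1 h2 N)
  have h4 : Real.exp (4 / (1 - κ) * (4 * ((m : ℝ) + 2))) ≤ (4 * ‖z‖) ^ K := by
    calc Real.exp (4 / (1 - κ) * (4 * ((m : ℝ) + 2))) = Real.exp B ^ (m + 2) := by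
          rw [← Real.exp_nat_mul, hB]
          congr 1
          push_cast
          ring
      _ ≤ (2 ^ K) ^ (m + 2) := by
          gcongr
      _ = (2 ^ (m + 2)) ^ K := by rw [← pow_mul, ← pow_mul, mul_comm]
      _ ≤ (4 * ‖z‖) ^ K := by
          apply pow_le_pow_left₀ (by positivity)
          have : (2 : ℝ) ^ (m + 2) = 4 * 2 ^ m := by rw [pow_add]; ring
          rw [this]
          linarith
  have h5 : 1 ≤ (4 * ‖z‖) ^ K := one_le_pow₀ (by linarith)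
  by_cases h6 : ‖f z‖ ≤ 1
  · exact h6.trans h5
  · push Not at h6
    calc ‖f z‖ ≤ ‖f z‖ ^ 2 := by nlinarith
      _ ≤ _ := h3.trans h4

theorem f_lower {z : ℂ} (hV : z ∈ V) (hz : z ∉ Pol) {m : ℕ} (hm : 1 ≤ m)
    (h1 : 2 ^ m ≤ ‖z‖) (h2 : ‖z‖ < 2 ^ (m + 1)) : 4 ^ m ≤ ‖f z‖ :=
  ge_of_tendsto (tendsto_fN (P_ne_of hz)).norm
    ((eventually_ge_atTop (m + 2)).mono fun _ hN => fN_lower hV (not_pol hz) hm h1 h2 hN)

theorem deriv_f_lower {z : ℂ} (hV : z ∈ V) (hz : z ∉ Pol) {m : ℕ} (hm : 1 ≤ m)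
    (h1 : 2 ^ m ≤ ‖z‖) (h2 : ‖z‖ < 2 ^ (m + 1)) : 2 ^ m / 24 ≤ ‖deriv f z‖ := by
  have hz0 : 0 < ‖z‖ := lt_of_lt_of_le (by positivity) h1
  refine ge_of_tendsto (tendsto_deriv_fN (not_pol hz)).norm
    ((eventually_ge_atTop (m + 2)).mono fun N hN => ?_)
  have h3 := fN_lower hV (not_pol hz) hm h1 h2 hN
  have h4 := S_lower hV (not_pol hz) hm h1 h2 hN
  have h5 : ‖z‖ * ‖deriv (fN N) z‖ = ‖fN N z‖ * ‖S N z‖ := by
    rw [← norm_mul, ← norm_mul, deriv_fN hV.1 (not_pol hz) N]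
  have h6 : (4 : ℝ) ^ m * (1 / 12) ≤ ‖z‖ * ‖deriv (fN N) z‖ := by
    rw [h5]; gcongr
  have h7 : ‖z‖ * ‖deriv (fN N) z‖ ≤ 2 ^ (m + 1) * ‖deriv (fN N) z‖ := by gcongr
  have h8 : (4 : ℝ) ^ m = 2 ^ m * 2 ^ m := by rw [← mul_pow]; norm_num
  have h9 : (0 : ℝ) < 2 ^ m := by positivity
  rw [h8] at h6
  rw [pow_succ] at h7
  have h10 : (2 : ℝ) ^ m * (2 ^ m / 24) ≤ 2 ^ m * ‖deriv (fN N) z‖ := by linarith
  exact le_of_mul_le_mul_left h10 h9

/-! ### Analyticity and normal form -/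

lemma f_analyticAt {z : ℂ} (hz : z ∉ Pol) : AnalyticAt ℂ f z := by
  have h1 : AnalyticAt ℂ P z := P_differentiable.analyticAt z
  have h2 : AnalyticAt ℂ (fun z : ℂ => P (-(I * z))) z :=
    (P_differentiable.comp (by fun_prop : Differentiable ℂ fun z : ℂ => -(I * z))).analyticAt z
  exact h2.fun_div h1 (P_ne_of hz)

/-- local form at the poles -/
noncomputable def gk (k : ℕ) (z : ℂ) : ℂ := P (-(I * z)) / ((-(1 / 2 ^ k)) ^ k * Rk k z)

lemma f_eq_pole (k : ℕ) (z : ℂ) : f z = (z - 2 ^ k) ^ (-(k : ℤ)) * gk k z := by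
  unfold f gk
  have h2 : (2 : ℂ) ^ k ≠ 0 := pow_ne_zero _ two_ne_zero
  have h3 : (1 - z / 2 ^ k) = (z - 2 ^ k) * (-(1 / 2 ^ k)) := by field_simp; ring
  rw [P_factor k z, h3, mul_pow, zpow_neg, zpow_natCast, mul_assoc, ← div_div, div_eq_mul_inv,
    div_eq_mul_inv, div_eq_mul_inv, mul_comm (P (-(I * z))), mul_assoc,
    div_eq_mul_inv (P (-(I * z)))]

lemma gk_analyticAt (k : ℕ) : AnalyticAt ℂ (gk k) (2 ^ k) := by
  have h1 : AnalyticAt ℂ (Rk k) (2 ^ k) := (Rk_differentiable k).analyticAt _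
  have h2 : AnalyticAt ℂ (fun z : ℂ => P (-(I * z))) (2 ^ k) :=
    (P_differentiable.comp (by fun_prop : Differentiable ℂ fun z : ℂ => -(I * z))).analyticAt _
  refine h2.fun_div (analyticAt_const.mul h1) ?_
  apply mul_ne_zero _ (Rk_ne k)
  apply pow_ne_zero
  rw [neg_ne_zero]
  exact one_div_ne_zero (pow_ne_zero _ two_ne_zero)

lemma gk_ne (k : ℕ) : gk k (2 ^ k) ≠ 0 := by
  unfold gk
  apply div_ne_zero
  · apply P_ne
    intro n _ h
    have h1 := congrArg Complex.re h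
    rw [two_pow_re] at h1
    simp only [Complex.neg_re, Complex.mul_re, Complex.I_re, Complex.I_im, zero_mul, one_mul,
      two_pow_im] at h1
    have : (0 : ℝ) < 2 ^ n := by positivity
    linarith
  · apply mul_ne_zero _ (Rk_ne k)
    apply pow_ne_zero
    rw [neg_ne_zero]
    exact one_div_ne_zero (pow_ne_zero _ two_ne_zero)

theorem f_NF : MeromorphicNFOn f univ := by
  intro z _
  by_cases hz : z ∈ Pol
  · obtain ⟨n, hn, rfl⟩ := hz
    right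
    refine ⟨-(n : ℤ), gk n, gk_analyticAt n, gk_ne n, Eventually.of_forall fun z => ?_⟩
    rw [f_eq_pole n z]
    rfl
  · exact (f_analyticAt hz).meromorphicNFAt

lemma f_meromorphicAt (z : ℂ) : MeromorphicAt f z := (f_NF (mem_univ z)).meromorphicAt

lemma f_meromorphic : MeromorphicOn f univ := fun z _ => f_meromorphicAt z

lemma order_pole (k : ℕ) : meromorphicOrderAt f (2 ^ k) = (-(k : ℤ) : ℤ) := by
  rw [meromorphicOrderAt_eq_int_iff (f_meromorphicAt _)]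
  refine ⟨gk k, gk_analyticAt k, gk_ne k, Eventually.of_forall fun z => ?_⟩
  rw [f_eq_pole k z]
  rfl

lemma not_analyticAt_pole {z : ℂ} (hz : z ∈ Pol) : ¬ AnalyticAt ℂ f z := by
  obtain ⟨n, hn, rfl⟩ := hz
  intro h
  have h1 := h.meromorphicOrderAt_nonneg
  rw [order_pole n] at h1
  have h2 : (0 : ℤ) ≤ -(n : ℤ) := by exact_mod_cast h1
  omega

/-- zeros of `f` are on the positive imaginary axis -/
lemma f_ne_zero {z : ℂ} (hz : z ∉ Pol) (h : ∀ n : ℕ, 1 ≤ n → z ≠ I * 2 ^ n) : f z ≠ 0 := by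
  unfold f
  apply div_ne_zero _ (P_ne_of hz)
  apply P_ne
  intro n hn h1
  apply h n hn
  have := Complex.I_mul_I
  linear_combination z * this + I * h1

end Pool.Agent.H311R2.YL
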