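import Mathlib
import Pool.Agent.H311R2.YL.Limit

open Filter Topology Set Finset Complex

namespace Pool.Agent.H311R2.YL

open Function.locallyFinsuppWithin in
lemma counting_lower (A : Finset ℕ) {r : ℝ} (hr : 1 ≤ r) (hA : ∀ n ∈ A, (2 : ℝ) ^ n ≤ r) :
    ∑ n ∈ A, (n : ℝ) * (Real.log r - n * Real.log 2) ≤ ValueDistribution.logCounting f ⊤ r := by
  classical
  rw [ValueDistribution.logCounting_top]
  set D : Function.locallyFinsupp ℂ ℤ := ∑ n ∈ A, single ((2 : ℂ) ^ n) (n : ℤ) with hD
  have hle : D ≤ (MeromorphicOn.divisor f univ)⁻ := by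
    intro z
    rw [negPart_apply, MeromorphicOn.divisor_apply f_meromorphic (mem_univ z), hD]
    simp only [Function.locallyFinsuppWithin.coe_sum, Finset.sum_apply, single_apply]
    by_cases hz : ∃ k ∈ A, z = 2 ^ k
    · obtain ⟨k, hk, rfl⟩ := hz
      rw [order_pole k, Finset.sum_eq_single k]
      · simp
      · intro n _ hn
        rw [if_neg]
        intro h
        apply hn
        have h3 : (2 : ℕ) ^ k = 2 ^ n := by exact_mod_cast h
        exact (Nat.pow_right_injective le_rfl h3).symm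
      · intro h
        exact absurd hk h
    · rw [Finset.sum_eq_zero]
      · exact negPart_nonneg _
      · intro n hn
        rw [if_neg]
        intro h
        exact hz ⟨n, hn, h⟩
  have h1 := logCounting_le hle hr
  refine le_trans (le_of_eq ?_) h1
  rw [hD, map_sum, Finset.sum_apply]
  refine Finset.sum_congr rfl fun n hn => ?_
  rw [logCounting_single_eq_log_sub_const]
  · rw [norm_two_pow, Real.log_pow]
    push_cast
    ring
  · rw [norm_two_pow]
    exact hA n hn

theorem T_lower : ∃ c : ℝ, 0 < c ∧ ∀ᶠ r : ℝ in atTop,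
    c * Real.log r ^ 3 ≤ ValueDistribution.characteristic f ⊤ r := by
  have hl2 : 0 < Real.log 2 := Real.log_pos (by norm_num)
  refine ⟨2 * Real.log 2 / (16 * Real.log 2) ^ 3, by positivity, ?_⟩
  filter_upwards [eventually_ge_atTop ((2 : ℝ) ^ 8)] with r hr
  have hr1 : (1 : ℝ) ≤ r := le_trans (by norm_num) hr
  obtain ⟨N, hN1, hN2⟩ := exists_nat_pow_near hr1 (one_lt_two : (1 : ℝ) < 2)
  have hN8 : 8 ≤ N := by
    by_contra hcon
    push Not at hcon
    have : (2 : ℝ) ^ (N + 1) ≤ 2 ^ 8 := pow_le_pow_right₀ (by norm_num) (by omega)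
    linarith
  set q : ℕ := N / 4 with hq
  have h4q : 4 * q ≤ N := Nat.mul_div_le N 4
  have hq8 : N ≤ 8 * q := by omega
  have hlogr : (N : ℝ) * Real.log 2 ≤ Real.log r := by
    rw [← Real.log_pow]
    exact Real.log_le_log (by positivity) hN1
  have hlogr2 : Real.log r ≤ (N + 1) * Real.log 2 := by
    have h := Real.log_le_log (by linarith) hN2.le
    rw [Real.log_pow] at h
    exact_mod_cast h
  have hcount := counting_lower (Finset.Icc q (2 * q)) hr1 (by
    intro n hn
    rw [Finset.mem_Icc] at hn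
    exact le_trans (pow_le_pow_right₀ (by norm_num) (by omega)) hN1)
  have hsum : (q : ℝ) * (q * (2 * q * Real.log 2)) ≤
      ∑ n ∈ Finset.Icc q (2 * q), (n : ℝ) * (Real.log r - n * Real.log 2) := by
    have hterm : ∀ n ∈ Finset.Icc q (2 * q), (q : ℝ) * (2 * q * Real.log 2) ≤
        (n : ℝ) * (Real.log r - n * Real.log 2) := by
      intro n hn
      rw [Finset.mem_Icc] at hn
      have h1 : (q : ℝ) ≤ n := by exact_mod_cast hn.1
      have h2 : (n : ℝ) ≤ 2 * q := by exact_mod_cast hn.2
      have h3 : (4 : ℝ) * q ≤ N := by exact_mod_cast h4q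
      have h5 : (n : ℝ) * Real.log 2 ≤ 2 * q * Real.log 2 := by gcongr
      have h6 : (4 : ℝ) * q * Real.log 2 ≤ N * Real.log 2 := by gcongr
      have h4 : 2 * q * Real.log 2 ≤ Real.log r - n * Real.log 2 := by linarith
      have h7 : (0 : ℝ) ≤ 2 * q * Real.log 2 := by positivity
      calc (q : ℝ) * (2 * q * Real.log 2) ≤ n * (2 * q * Real.log 2) := by gcongr
        _ ≤ n * (Real.log r - n * Real.log 2) := by gcongr
    have h8 := Finset.card_nsmul_le_sum _ _ _ hterm
    rw [Nat.card_Icc, nsmul_eq_mul] at h8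
    refine le_trans ?_ h8
    have h9 : (q : ℝ) ≤ ((2 * q + 1 - q : ℕ) : ℝ) := by
      have : q ≤ 2 * q + 1 - q := by omega
      exact_mod_cast this
    gcongr
  have hprox := ValueDistribution.proximity_nonneg (f := f) (a := ⊤) r
  have hchar : ValueDistribution.characteristic f ⊤ r =
      ValueDistribution.proximity f ⊤ r + ValueDistribution.logCounting f ⊤ r := rfl
  rw [hchar]
  have hqlog : Real.log r ≤ 16 * q * Real.log 2 := by
    have h1 : (N : ℝ) + 1 ≤ 16 * q := by
      have : N + 1 ≤ 16 * q := by omega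
      exact_mod_cast this
    calc Real.log r ≤ (N + 1) * Real.log 2 := hlogr2
      _ ≤ 16 * q * Real.log 2 := by gcongr
  have hlog0 : 0 ≤ Real.log r := Real.log_nonneg hr1
  have hfin : 2 * Real.log 2 / (16 * Real.log 2) ^ 3 * Real.log r ^ 3 ≤
      (q : ℝ) * (q * (2 * q * Real.log 2)) := by
    calc 2 * Real.log 2 / (16 * Real.log 2) ^ 3 * Real.log r ^ 3
        ≤ 2 * Real.log 2 / (16 * Real.log 2) ^ 3 * (16 * q * Real.log 2) ^ 3 := by gcongr
      _ = (q : ℝ) * (q * (2 * q * Real.log 2)) := by field_simp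
  have hprox' : 0 ≤ ValueDistribution.proximity f ⊤ r := hprox
  linarith

theorem T_quot : Tendsto (fun r : ℝ => ValueDistribution.characteristic f ⊤ r / Real.log r ^ 2)
    atTop atTop := by
  obtain ⟨c, hc, h⟩ := T_lower
  have h1 : Tendsto (fun r : ℝ => c * Real.log r) atTop atTop :=
    Real.tendsto_log_atTop.const_mul_atTop hc
  refine tendsto_atTop_mono' atTop ?_ h1
  filter_upwards [h, eventually_gt_atTop (1 : ℝ)] with r hr hr1
  have hl : 0 < Real.log r := Real.log_pos hr1
  rw [le_div_iff₀ (by positivity)]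
  calc c * Real.log r * Real.log r ^ 2 = c * Real.log r ^ 3 := by ring
    _ ≤ _ := hr

end Pool.Agent.H311R2.YL
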